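import Pool.Agent.Q218.HB.Stm

/-!
# Project HB: job BES, bounds for the Bessel function

For `2 q sin α = t` one has
`b(q) = (1/4π) ∫ (exp(2 i q cos(θ + α)) + exp(2 i q cos(θ - α))) dθ
      = (1/2π) ∫ exp(2 i q cos θ cos α) cos(t sin θ) dθ`,
so `|b(q)| ≤ (1/2π) ∫ |cos(t sin θ)| dθ` for all `t` in `[0, 2 q]`.
-/

set_option autoImplicit false

open MeasureTheory

namespace Pool.Agent.Q150.HB

open Pool.Agent.Q218.HB

/-- the integrand -/
noncomputable def fb (q θ : ℝ) : ℂ := Complex.exp (2 * (q : ℂ) * Complex.I * (Real.cos θ : ℝ))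

theorem fb_cont (q : ℝ) : Continuous (fb q) := by
  unfold fb
  fun_prop

theorem fb_per (q : ℝ) : Function.Periodic (fb q) (2 * Real.pi) := by
  intro θ
  unfold fb
  rw [Real.cos_add_two_pi]

theorem fb_shift (q α : ℝ) :
    ∫ θ in (0 : ℝ)..(2 * Real.pi), fb q (θ + α) = ∫ θ in (0 : ℝ)..(2 * Real.pi), fb q θ := by
  rw [intervalIntegral.integral_comp_add_right (fb q) α]
  have h := (fb_per q).intervalIntegral_add_eq α 0
  rw [zero_add] at h
  rw [zero_add, add_comm (2 * Real.pi) α]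
  exact h

theorem fb_add (q α t θ : ℝ) (h : 2 * q * Real.sin α = t) :
    ‖fb q (θ + α) + fb q (θ + -α)‖ = 2 * |Real.cos (t * Real.sin θ)| := by
  have e : fb q (θ + α) + fb q (θ + -α) =
      Complex.exp (((2 * q * (Real.cos θ * Real.cos α) : ℝ) : ℂ) * Complex.I) *
        ((2 * Real.cos (t * Real.sin θ) : ℝ) : ℂ) := by
    have h1 : ((2 * Real.cos (t * Real.sin θ) : ℝ) : ℂ) =
        Complex.exp (((t * Real.sin θ : ℝ) : ℂ) * Complex.I) +
          Complex.exp (-((t * Real.sin θ : ℝ) : ℂ) * Complex.I) := by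
      rw [← Complex.two_cos]
      push_cast
      ring
    rw [h1, mul_add, ← Complex.exp_add, ← Complex.exp_add, add_comm]
    unfold fb
    rw [Real.cos_add, Real.cos_add, Real.cos_neg, Real.sin_neg]
    congr 1
    · congr 1
      rw [← h]
      push_cast
      ring
    · congr 1
      rw [← h]
      push_cast
      ring
  rw [e, norm_mul, Complex.norm_exp_ofReal_mul_I, one_mul, Complex.norm_real, Real.norm_eq_abs,
    abs_mul, abs_of_pos (two_pos : (0 : ℝ) < 2)]

theorem cos_up (t θ : ℝ) (h0 : 0 ≤ t) (h1 : t ≤ 1) :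
    |Real.cos (t * Real.sin θ)| ≤ 1 - 43 / 96 * t ^ 2 * Real.sin θ ^ 2 := by
  have hy : |t * Real.sin θ| ≤ 1 := by
    rw [abs_mul, abs_of_nonneg h0]
    calc t * |Real.sin θ| ≤ 1 * 1 := mul_le_mul h1 (Real.abs_sin_le_one θ) (abs_nonneg _) zero_le_one
      _ = 1 := one_mul 1
  obtain ⟨y, hyd⟩ : ∃ y : ℝ, y = t * Real.sin θ := ⟨_, rfl⟩
  rw [← hyd] at hy ⊢
  have hb := Real.cos_bound hy
  have hy2 : y ^ 2 ≤ 1 := by
    rw [← sq_abs]
    exact pow_le_one₀ (abs_nonneg _) hy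
  have hy4 : |y| ^ 4 ≤ y ^ 2 := by
    have : |y| ^ 4 = y ^ 2 * y ^ 2 := by
      rw [show (4 : ℕ) = 2 * 2 from rfl, pow_mul, sq_abs]
      ring
    rw [this]
    nlinarith [sq_nonneg y]
  have hpos : 0 ≤ Real.cos y := by
    have := (abs_le.1 hb).1
    nlinarith [sq_nonneg y]
  rw [abs_of_nonneg hpos]
  have := (abs_le.1 hb).2
  have e : t ^ 2 * Real.sin θ ^ 2 = y ^ 2 := by rw [hyd]; ring
  nlinarith

theorem bc_le (q t : ℝ) (hq : 0 < q) (ht0 : 0 ≤ t) (ht1 : t ≤ 1) (htq : t ≤ 2 * q) :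
    ‖bc q‖ ≤ 1 - 43 / 192 * t ^ 2 := by
  obtain ⟨α, hα⟩ : ∃ α : ℝ, 2 * q * Real.sin α = t := by
    refine ⟨Real.arcsin (t / (2 * q)), ?_⟩
    rw [Real.sin_arcsin]
    · field_simp
    · have : 0 ≤ t / (2 * q) := by positivity
      linarith
    · rw [div_le_one (by positivity)]
      exact htq
  have hpi := Real.pi_pos
  have hi1 : IntervalIntegrable (fun θ => fb q (θ + α)) volume 0 (2 * Real.pi) := by
    refine Continuous.intervalIntegrable ?_ _ _
    exact (fb_cont q).comp (by fun_prop)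
  have hi2 : IntervalIntegrable (fun θ => fb q (θ + -α)) volume 0 (2 * Real.pi) := by
    refine Continuous.intervalIntegrable ?_ _ _
    exact (fb_cont q).comp (by fun_prop)
  have h1 : 2 * ∫ θ in (0 : ℝ)..(2 * Real.pi), fb q θ =
      ∫ θ in (0 : ℝ)..(2 * Real.pi), (fb q (θ + α) + fb q (θ + -α)) := by
    rw [intervalIntegral.integral_add hi1 hi2, fb_shift, fb_shift]
    ring
  have h2 : 2 * ‖∫ θ in (0 : ℝ)..(2 * Real.pi), fb q θ‖ ≤
      ∫ θ in (0 : ℝ)..(2 * Real.pi), 2 * |Real.cos (t * Real.sin θ)| := by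
    have h3 : 2 * ‖∫ θ in (0 : ℝ)..(2 * Real.pi), fb q θ‖ =
        ‖2 * ∫ θ in (0 : ℝ)..(2 * Real.pi), fb q θ‖ := by
      rw [norm_mul]
      congr 1
      norm_num
    rw [h3, h1]
    refine (intervalIntegral.norm_integral_le_integral_norm (by positivity)).trans (le_of_eq ?_)
    exact intervalIntegral.integral_congr fun θ _ => fb_add q α t θ hα
  have h4 : ∫ θ in (0 : ℝ)..(2 * Real.pi), 2 * |Real.cos (t * Real.sin θ)| ≤
      ∫ θ in (0 : ℝ)..(2 * Real.pi), 2 * (1 - 43 / 96 * t ^ 2 * Real.sin θ ^ 2) := by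
    refine intervalIntegral.integral_mono_on (by positivity) ?_ ?_ fun θ _ => ?_
    · exact Continuous.intervalIntegrable (by fun_prop) _ _
    · exact Continuous.intervalIntegrable (by fun_prop) _ _
    · exact mul_le_mul_of_nonneg_left (cos_up t θ ht0 ht1) (by norm_num)
  have h5 : ∫ θ in (0 : ℝ)..(2 * Real.pi), 2 * (1 - 43 / 96 * t ^ 2 * Real.sin θ ^ 2) =
      2 * (2 * Real.pi - 43 / 96 * t ^ 2 * Real.pi) := by
    rw [intervalIntegral.integral_const_mul, intervalIntegral.integral_sub,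
      intervalIntegral.integral_const_mul, integral_sin_sq]
    · simp
    · exact Continuous.intervalIntegrable (by fun_prop) _ _
    · exact Continuous.intervalIntegrable (by fun_prop) _ _
  have h6 : ‖∫ θ in (0 : ℝ)..(2 * Real.pi), fb q θ‖ ≤ 2 * Real.pi - 43 / 96 * t ^ 2 * Real.pi := by
    linarith
  have h7 : ‖bc q‖ = (2 * Real.pi)⁻¹ * ‖∫ θ in (0 : ℝ)..(2 * Real.pi), fb q θ‖ := by
    show ‖(((2 * Real.pi)⁻¹ : ℝ) : ℂ) * ∫ θ in (0 : ℝ)..(2 * Real.pi), fb q θ‖ = _
    rw [norm_mul, Complex.norm_real, Real.norm_eq_abs, abs_of_pos (by positivity)]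
  rw [h7]
  calc (2 * Real.pi)⁻¹ * ‖∫ θ in (0 : ℝ)..(2 * Real.pi), fb q θ‖
      ≤ (2 * Real.pi)⁻¹ * (2 * Real.pi - 43 / 96 * t ^ 2 * Real.pi) :=
        mul_le_mul_of_nonneg_left h6 (by positivity)
    _ = 1 - 43 / 192 * t ^ 2 := by field_simp; ring

/-- **JOB BES.** -/
theorem bes : S_BES := by
  refine ⟨43 / 48, 1 / 2, 149 / 192, by norm_num, by norm_num, by norm_num, by norm_num, ?_, ?_⟩
  · intro q h0 h1
    rcases h0.eq_or_lt with h | h
    · subst h
      have : bc 0 = 1 := by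
        unfold bc
        have hpi : (Real.pi : ℂ) ≠ 0 := by exact_mod_cast Real.pi_ne_zero
        simp
        field_simp
      rw [this]
      simp
    · have h2 := bc_le q (2 * q) h (by linarith) (by linarith) le_rfl
      refine h2.trans ?_
      have h3 := Real.add_one_le_exp (-(43 / 48 * q ^ 2))
      refine le_trans (le_of_eq ?_) h3
      ring
  · intro q h0
    have h2 := bc_le q 1 (by linarith) zero_le_one le_rfl (by linarith)
    refine h2.trans (le_of_eq ?_)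
    norm_num

end Pool.Agent.Q150.HB
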