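import Pool.Agent.Q218.HB.Stm

/-!
# Project HB: job COM, the commutator estimate
-/

set_option autoImplicit false

open MeasureTheory

namespace Pool.Agent.Q150.HB

open Pool.Agent.Q218.HB

section

variable {d n : ℕ} [NeZero n]

theorem sum_shift {M : Type} [AddCommMonoid M] (f : Tor d n → M) (v : Tor d n) :
    ∑ x, f (x + v) = ∑ x, f x :=
  Equiv.sum_comp (Equiv.addRight v) f

/-- moving the operator to the other side -/
theorem adj (w : Tor d n → ℝ) (g : Tor d n → ℂ) (e v : Tor d n) (hw : ∀ x, w (x + v) = w x) :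
    ∑ x, (starRingEnd ℂ) (g (x + v)) * ((w x : ℂ) * g (x + e)) =
      (starRingEnd ℂ) (∑ x, (starRingEnd ℂ) (g (x - v)) * ((w (x - e) : ℂ) * g (x - e))) := by
  rw [map_sum]
  refine Eq.trans ?_ (sum_shift (fun x => (starRingEnd ℂ) ((starRingEnd ℂ) (g (x - v)) *
    ((w (x - e) : ℂ) * g (x - e)))) (v + e))
  refine Finset.sum_congr rfl fun x _ => ?_
  show _ = (starRingEnd ℂ) ((starRingEnd ℂ) (g (x + (v + e) - v)) *
    ((w (x + (v + e) - e) : ℂ) * g (x + (v + e) - e)))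
  have e1 : x + (v + e) - v = x + e := by abel
  have e2 : x + (v + e) - e = x + v := by abel
  rw [e1, e2, hw x, map_mul, map_mul, Complex.conj_conj, Complex.conj_ofReal]
  ring

/-- the operator `B` -/
noncomputable def Bo (w : Tor d n → ℝ) (e : Tor d n) (g : Tor d n → ℂ) (x : Tor d n) : ℂ :=
  (w x : ℂ) * g (x + e) - (w (x - e) : ℂ) * g (x - e)

theorem skew (w : Tor d n → ℝ) (g : Tor d n → ℂ) (e : Tor d n) :
    (∑ x, (starRingEnd ℂ) (g x) * Bo w e g x).re = 0 := by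
  have h := adj w g e 0 (fun x => by rw [add_zero])
  have h1 : ∑ x, (starRingEnd ℂ) (g x) * Bo w e g x =
      (∑ x, (starRingEnd ℂ) (g (x + 0)) * ((w x : ℂ) * g (x + e))) -
        ∑ x, (starRingEnd ℂ) (g (x - 0)) * ((w (x - e) : ℂ) * g (x - e)) := by
    rw [← Finset.sum_sub_distrib]
    refine Finset.sum_congr rfl fun x _ => ?_
    unfold Bo
    rw [add_zero, sub_zero]
    ring
  rw [h1, h, Complex.sub_re, Complex.conj_re, sub_self]

theorem off (w : Tor d n → ℝ) (g : Tor d n → ℂ) (e v : Tor d n) (hw : ∀ x, w (x + v) = w x) :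
    (∑ x, (starRingEnd ℂ) (g (x + v) + g (x - v)) * Bo w e g x).re = 0 := by
  have hw' : ∀ x, w (x + -v) = w x := by
    intro x
    rw [← hw (x + -v)]
    congr 1
    abel
  have h := adj w g e v hw
  have h' := adj w g e (-v) hw'
  have h1 : ∑ x, (starRingEnd ℂ) (g (x + v) + g (x - v)) * Bo w e g x =
      (∑ x, (starRingEnd ℂ) (g (x + v)) * ((w x : ℂ) * g (x + e)) +
        ∑ x, (starRingEnd ℂ) (g (x + -v)) * ((w x : ℂ) * g (x + e))) -
      (∑ x, (starRingEnd ℂ) (g (x - v)) * ((w (x - e) : ℂ) * g (x - e)) +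
        ∑ x, (starRingEnd ℂ) (g (x - -v)) * ((w (x - e) : ℂ) * g (x - e))) := by
    rw [← Finset.sum_add_distrib, ← Finset.sum_add_distrib, ← Finset.sum_sub_distrib]
    refine Finset.sum_congr rfl fun x _ => ?_
    unfold Bo
    rw [← sub_eq_add_neg, sub_neg_eq_add, map_add]
    ring
  rw [h1, h, h', Complex.sub_re, Complex.add_re, Complex.add_re, Complex.conj_re, Complex.conj_re]
  ring

theorem diag (w : Tor d n → ℝ) (g : Tor d n → ℂ) (e : Tor d n) (s : Tor d n → ℝ)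
    (hs : ∀ x, s x = w x - w (x - e)) :
    2 * (∑ x, (starRingEnd ℂ) (g (x + e) + g (x - e)) * Bo w e g x).re =
      -(∑ x, s x * ‖g (x + e) - g (x - e)‖ ^ 2 +
        ∑ x, (2 * s x - s (x - e) - s (x + e)) * ‖g x‖ ^ 2) := by
  have hp : ∀ x, 2 * ((starRingEnd ℂ) (g (x + e) + g (x - e)) * Bo w e g x).re =
      2 * (w x * ‖g (x + e)‖ ^ 2) - 2 * (w (x - e) * ‖g (x - e)‖ ^ 2) +
        s x * ‖g (x + e)‖ ^ 2 + s x * ‖g (x - e)‖ ^ 2 - s x * ‖g (x + e) - g (x - e)‖ ^ 2 := by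
    intro x
    rw [hs x]
    unfold Bo
    simp only [← Complex.normSq_eq_norm_sq, Complex.normSq_apply, Complex.mul_re, Complex.mul_im,
      Complex.sub_re, Complex.sub_im, Complex.add_re, Complex.add_im, Complex.conj_re,
      Complex.conj_im, Complex.ofReal_re, Complex.ofReal_im, map_add]
    ring
  have t1 : ∑ x, w x * ‖g (x + e)‖ ^ 2 = ∑ x, w (x - e) * ‖g x‖ ^ 2 := by
    rw [← sum_shift (fun x => w (x - e) * ‖g x‖ ^ 2) e]
    exact Finset.sum_congr rfl fun x _ => by rw [add_sub_cancel_right]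
  have t2 : ∑ x, w (x - e) * ‖g (x - e)‖ ^ 2 = ∑ x, w x * ‖g x‖ ^ 2 := by
    rw [← sum_shift (fun x => w (x - e) * ‖g (x - e)‖ ^ 2) e]
    exact Finset.sum_congr rfl fun x _ => by rw [add_sub_cancel_right]
  have t3 : ∑ x, s x * ‖g (x + e)‖ ^ 2 = ∑ x, s (x - e) * ‖g x‖ ^ 2 := by
    rw [← sum_shift (fun x => s (x - e) * ‖g x‖ ^ 2) e]
    exact Finset.sum_congr rfl fun x _ => by rw [add_sub_cancel_right]
  have t4 : ∑ x, s x * ‖g (x - e)‖ ^ 2 = ∑ x, s (x + e) * ‖g x‖ ^ 2 := by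
    rw [← sum_shift (fun x => s x * ‖g (x - e)‖ ^ 2) e]
    exact Finset.sum_congr rfl fun x _ => by rw [add_sub_cancel_right]
  rw [Complex.re_sum, Finset.mul_sum, Finset.sum_congr rfl fun x _ => hp x,
    Finset.sum_sub_distrib, Finset.sum_add_distrib, Finset.sum_add_distrib, Finset.sum_sub_distrib,
    ← Finset.mul_sum, ← Finset.mul_sum, t1, t2, t3, t4]
  have t5 : ∑ x, (2 * s x - s (x - e) - s (x + e)) * ‖g x‖ ^ 2 =
      2 * ∑ x, w x * ‖g x‖ ^ 2 - 2 * ∑ x, w (x - e) * ‖g x‖ ^ 2 - ∑ x, s (x - e) * ‖g x‖ ^ 2 -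
        ∑ x, s (x + e) * ‖g x‖ ^ 2 := by
    rw [Finset.mul_sum, Finset.mul_sum, ← Finset.sum_sub_distrib, ← Finset.sum_sub_distrib,
      ← Finset.sum_sub_distrib]
    refine Finset.sum_congr rfl fun x _ => ?_
    rw [hs x]
    ring
  rw [t5]
  ring

theorem hop_sum (g : Tor d n → ℂ) (x : Tor d n) :
    ∑ y, ((hop x y : ℝ) : ℂ) * g y = -∑ j, (g (x + ev j) + g (x - ev j)) := by
  have h : ∀ y, ((hop x y : ℝ) : ℂ) * g y =
      -∑ j, ((if y = x + ev j then g y else 0) + (if y = x - ev j then g y else 0)) := by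
    intro y
    unfold hop
    push_cast
    rw [neg_mul, Finset.sum_mul]
    congr 1
    refine Finset.sum_congr rfl fun j _ => ?_
    rw [add_mul]
    split_ifs <;> simp
  rw [Finset.sum_congr rfl fun y _ => h y, Finset.sum_neg_distrib, Finset.sum_comm]
  congr 1
  refine Finset.sum_congr rfl fun j _ => ?_
  rw [Finset.sum_add_distrib, Finset.sum_ite_eq', Finset.sum_ite_eq']
  simp

theorem cs (f g : Tor d n → ℂ) :
    ‖∑ x, (starRingEnd ℂ) (f x) * g x‖ ≤ Real.sqrt (∑ x, ‖f x‖ ^ 2) * Real.sqrt (∑ x, ‖g x‖ ^ 2) := by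
  refine (norm_sum_le _ _).trans ?_
  refine le_trans (le_of_eq ?_) (Real.sum_mul_le_sqrt_mul_sqrt Finset.univ (fun x => ‖f x‖)
    (fun x => ‖g x‖))
  refine Finset.sum_congr rfl fun x _ => ?_
  rw [norm_mul, RCLike.norm_conj]

theorem bo_norm (w : Tor d n → ℝ) (e : Tor d n) (g : Tor d n → ℂ) (W : ℝ) (hW : ∀ x, |w x| ≤ W) :
    Real.sqrt (∑ x, ‖Bo w e g x‖ ^ 2) ≤ 2 * W * Real.sqrt (∑ x, ‖g x‖ ^ 2) := by
  have hW0 : 0 ≤ W := (abs_nonneg _).trans (hW 0)
  have h1 : ∑ x, ‖Bo w e g x‖ ^ 2 ≤ (2 * W) ^ 2 * ∑ x, ‖g x‖ ^ 2 := by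
    have hb : ∀ x, ‖Bo w e g x‖ ^ 2 ≤ 2 * W ^ 2 * ‖g (x + e)‖ ^ 2 + 2 * W ^ 2 * ‖g (x - e)‖ ^ 2 := by
      intro x
      have h2 : ‖Bo w e g x‖ ≤ W * ‖g (x + e)‖ + W * ‖g (x - e)‖ := by
        unfold Bo
        refine (norm_sub_le _ _).trans (add_le_add ?_ ?_)
        · rw [norm_mul, Complex.norm_real, Real.norm_eq_abs]
          exact mul_le_mul_of_nonneg_right (hW _) (norm_nonneg _)
        · rw [norm_mul, Complex.norm_real, Real.norm_eq_abs]
          exact mul_le_mul_of_nonneg_right (hW _) (norm_nonneg _)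
      have h3 := pow_le_pow_left₀ (norm_nonneg _) h2 2
      nlinarith [sq_nonneg (W * ‖g (x + e)‖ - W * ‖g (x - e)‖)]
    have t1 : ∑ x, ‖g (x + e)‖ ^ 2 = ∑ x, ‖g x‖ ^ 2 := sum_shift (fun x => ‖g x‖ ^ 2) e
    have t2 : ∑ x, ‖g (x - e)‖ ^ 2 = ∑ x, ‖g x‖ ^ 2 := by
      have := sum_shift (fun x => ‖g x‖ ^ 2) (-e)
      simpa only [← sub_eq_add_neg] using this
    calc ∑ x, ‖Bo w e g x‖ ^ 2 ≤ ∑ x, (2 * W ^ 2 * ‖g (x + e)‖ ^ 2 + 2 * W ^ 2 * ‖g (x - e)‖ ^ 2) :=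
          Finset.sum_le_sum fun x _ => hb x
      _ = (2 * W) ^ 2 * ∑ x, ‖g x‖ ^ 2 := by
          rw [Finset.sum_add_distrib, ← Finset.mul_sum, ← Finset.mul_sum, t1, t2]
          ring
  calc Real.sqrt (∑ x, ‖Bo w e g x‖ ^ 2) ≤ Real.sqrt ((2 * W) ^ 2 * ∑ x, ‖g x‖ ^ 2) :=
        Real.sqrt_le_sqrt h1
    _ = 2 * W * Real.sqrt (∑ x, ‖g x‖ ^ 2) := by
        rw [Real.sqrt_mul (sq_nonneg _), Real.sqrt_sq (by linarith)]

theorem ev_ne {i j : Fin d} (h : j ≠ i) (x : Tor d n) :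
    (x + ev j : Tor d n) i = x i := by
  rw [Pi.add_apply, ev, Pi.single_eq_of_ne (Ne.symm h), add_zero]

theorem ev_add (i : Fin d) (x : Tor d n) : (x + ev i : Tor d n) i = x i + 1 := by
  rw [Pi.add_apply, ev, Pi.single_eq_same]

theorem ev_sub (i : Fin d) (x : Tor d n) : (x - ev i : Tor d n) i = x i - 1 := by
  rw [Pi.sub_apply, ev, Pi.single_eq_same]

/-- the commutator inequality for a weight of the coordinate `i` -/
theorem comm_le (i : Fin d) (θ : ZMod n → ℝ) (Θ : ℝ) (hΘ : ∀ c, |θ c| ≤ Θ) (E η : ℝ) (hη : 0 < η)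
    (g F : Tor d n → ℂ) (hF : ∀ x, ∑ y, ((hop x y : ℝ) : ℂ) * g y - pt E η * g x = F x)
    (s : Tor d n → ℝ) (hs : ∀ x, s x = θ (x i + 1) - θ (x i - 1)) :
    ∑ x, s x * ‖g (x + ev i) - g (x - ev i)‖ ^ 2 +
        ∑ x, (2 * s x - s (x - ev i) - s (x + ev i)) * ‖g x‖ ^ 2 ≤
      8 * Θ * (Real.sqrt (∑ x, ‖F x‖ ^ 2) * Real.sqrt (∑ x, ‖g x‖ ^ 2) + η * ∑ x, ‖g x‖ ^ 2) := by
  obtain ⟨w, hwd⟩ : ∃ w : Tor d n → ℝ, w = fun x => θ (x i) + θ (x i + 1) := ⟨_, rfl⟩
  have hW : ∀ x, |w x| ≤ 2 * Θ := by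
    intro x
    rw [hwd]
    have := hΘ (x i)
    have := hΘ (x i + 1)
    have := abs_add_le (θ (x i)) (θ (x i + 1))
    show |θ (x i) + θ (x i + 1)| ≤ 2 * Θ
    linarith
  have hwj : ∀ j, j ≠ i → ∀ x, w (x + ev j) = w x := by
    intro j hj x
    rw [hwd]
    show θ ((x + ev j : Tor d n) i) + θ ((x + ev j : Tor d n) i + 1) = _
    rw [ev_ne hj]
  have hws : ∀ x, s x = w x - w (x - ev i) := by
    intro x
    rw [hs x, hwd]
    show _ = (θ (x i) + θ (x i + 1)) -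
      (θ ((x - ev i : Tor d n) i) + θ ((x - ev i : Tor d n) i + 1))
    rw [ev_sub, sub_add_cancel]
    ring
  have h1 := diag w g (ev i) s hws
  have h2 : (∑ x, (starRingEnd ℂ) (∑ j, (g (x + ev j) + g (x - ev j))) * Bo w (ev i) g x).re =
      (∑ x, (starRingEnd ℂ) (g (x + ev i) + g (x - ev i)) * Bo w (ev i) g x).re := by
    have h3 : ∑ x, (starRingEnd ℂ) (∑ j, (g (x + ev j) + g (x - ev j))) * Bo w (ev i) g x =
        ∑ j, ∑ x, (starRingEnd ℂ) (g (x + ev j) + g (x - ev j)) * Bo w (ev i) g x := by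
      rw [Finset.sum_comm]
      refine Finset.sum_congr rfl fun x _ => ?_
      rw [map_sum, Finset.sum_mul]
    rw [h3, Complex.re_sum]
    exact Finset.sum_eq_single i (fun j _ hj => off w g (ev i) (ev j) (hwj j hj))
      (fun h => absurd (Finset.mem_univ _) h)
  have hH : ∀ x, ∑ j, (g (x + ev j) + g (x - ev j)) = -(F x + pt E η * g x) := by
    intro x
    have := hF x
    rw [hop_sum] at this
    rw [← this]
    ring
  have h4 : (∑ x, (starRingEnd ℂ) (∑ j, (g (x + ev j) + g (x - ev j))) * Bo w (ev i) g x) =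
      -(∑ x, (starRingEnd ℂ) (F x) * Bo w (ev i) g x) -
        (starRingEnd ℂ) (pt E η) * ∑ x, (starRingEnd ℂ) (g x) * Bo w (ev i) g x := by
    rw [Finset.mul_sum, ← Finset.sum_neg_distrib, ← Finset.sum_sub_distrib]
    refine Finset.sum_congr rfl fun x _ => ?_
    rw [hH x, map_neg, map_add, map_mul]
    ring
  have h5 := skew w g (ev i)
  set Q := ∑ x, (starRingEnd ℂ) (g x) * Bo w (ev i) g x with hQ
  set R := ∑ x, (starRingEnd ℂ) (F x) * Bo w (ev i) g x with hR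
  have hre : ((starRingEnd ℂ) (pt E η) * Q).re = η * Q.im := by
    rw [Complex.mul_re, Complex.conj_re, Complex.conj_im, h5]
    unfold pt
    simp
  have h6 : ∑ x, s x * ‖g (x + ev i) - g (x - ev i)‖ ^ 2 +
        ∑ x, (2 * s x - s (x - ev i) - s (x + ev i)) * ‖g x‖ ^ 2 = 2 * R.re + 2 * (η * Q.im) := by
    rw [h4, Complex.sub_re, Complex.neg_re, hre] at h2
    linarith
  rw [h6]
  have h7 := bo_norm w (ev i) g (2 * Θ) hW
  have h8 : R.re ≤ Real.sqrt (∑ x, ‖F x‖ ^ 2) * (2 * (2 * Θ) * Real.sqrt (∑ x, ‖g x‖ ^ 2)) :=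
    (Complex.re_le_norm R).trans ((cs F (Bo w (ev i) g)).trans
      (mul_le_mul_of_nonneg_left h7 (Real.sqrt_nonneg _)))
  have h9 : Q.im ≤ Real.sqrt (∑ x, ‖g x‖ ^ 2) * (2 * (2 * Θ) * Real.sqrt (∑ x, ‖g x‖ ^ 2)) :=
    ((le_abs_self _).trans (Complex.abs_im_le_norm Q)).trans ((cs g (Bo w (ev i) g)).trans
      (mul_le_mul_of_nonneg_left h7 (Real.sqrt_nonneg _)))
  have h10 : Real.sqrt (∑ x, ‖g x‖ ^ 2) * Real.sqrt (∑ x, ‖g x‖ ^ 2) = ∑ x, ‖g x‖ ^ 2 :=
    Real.mul_self_sqrt (Finset.sum_nonneg fun x _ => sq_nonneg _)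
  have h11 : η * Q.im ≤ η * (4 * Θ * ∑ x, ‖g x‖ ^ 2) := by
    refine mul_le_mul_of_nonneg_left (h9.trans (le_of_eq ?_)) hη.le
    calc Real.sqrt (∑ x, ‖g x‖ ^ 2) * (2 * (2 * Θ) * Real.sqrt (∑ x, ‖g x‖ ^ 2)) =
        4 * Θ * (Real.sqrt (∑ x, ‖g x‖ ^ 2) * Real.sqrt (∑ x, ‖g x‖ ^ 2)) := by ring
      _ = 4 * Θ * ∑ x, ‖g x‖ ^ 2 := by rw [h10]
  calc 2 * R.re + 2 * (η * Q.im) ≤ 2 * (Real.sqrt (∑ x, ‖F x‖ ^ 2) *
        (2 * (2 * Θ) * Real.sqrt (∑ x, ‖g x‖ ^ 2))) + 2 * (η * (4 * Θ * ∑ x, ‖g x‖ ^ 2)) := by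
        linarith
    _ = _ := by ring

end

/-! ### the tent -/

section

variable {n : ℕ} [NeZero n]

theorem vma_one (hn : 3 ≤ n) : (1 : ZMod n).valMinAbs = 1 := by
  rw [ZMod.valMinAbs_spec]
  refine ⟨by simp, ?_⟩
  rw [Set.mem_Ioc]
  omega

theorem vma_neg_one (hn : 3 ≤ n) : (-1 : ZMod n).valMinAbs = -1 := by
  rw [ZMod.valMinAbs_spec]
  refine ⟨by simp, ?_⟩
  rw [Set.mem_Ioc]
  omega

/-- the distance to `b` -/
def ds (b c : ZMod n) : ℕ := (c - b).valMinAbs.natAbs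

theorem ds_succ (hn : 3 ≤ n) (b c : ZMod n) : ds b (c + 1) ≤ ds b c + 1 := by
  unfold ds
  have h := ZMod.natAbs_valMinAbs_add_le (c - b) 1
  rw [vma_one hn] at h
  have e : c + 1 - b = c - b + 1 := by ring
  rw [e]
  omega

theorem ds_pred (hn : 3 ≤ n) (b c : ZMod n) : ds b c ≤ ds b (c + 1) + 1 := by
  unfold ds
  have h := ZMod.natAbs_valMinAbs_add_le (c + 1 - b) (-1)
  rw [vma_neg_one hn] at h
  have e : c + 1 - b + -1 = c - b := by ring
  rw [e] at h
  omega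

theorem ds_slab {L : ℕ} (hn : 2 * L < n) {b c : ZMod n} (hc : c ∈ slab b L) : ds b c ≤ L := by
  obtain ⟨m, hm, rfl⟩ := hc
  unfold ds
  have e : b + (m : ZMod n) - b = (m : ZMod n) := by ring
  rw [e]
  have h : ((m : ZMod n)).valMinAbs = m := by
    rw [ZMod.valMinAbs_spec]
    refine ⟨rfl, ?_⟩
    rw [Set.mem_Ioc]
    rw [abs_le] at hm
    omega
  rw [h]
  rw [abs_le] at hm
  omega

/-- the tent -/
noncomputable def tent (L : ℕ) (b c : ZMod n) : ℝ := max 0 (1 - (ds b c : ℝ) / (2 * L))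

theorem tent_nonneg (L : ℕ) (b c : ZMod n) : 0 ≤ tent L b c := le_max_left _ _

theorem tent_lip {L : ℕ} (hL : 1 ≤ L) (hn : 3 ≤ n) (b c : ZMod n) :
    |tent L b (c + 1) - tent L b c| ≤ 1 / (2 * L) := by
  have hL' : (0 : ℝ) < 2 * L := by
    have : (1 : ℝ) ≤ L := by exact_mod_cast hL
    linarith
  have h1 : (ds b (c + 1) : ℝ) ≤ ds b c + 1 := by exact_mod_cast ds_succ hn b c
  have h2 : (ds b c : ℝ) ≤ ds b (c + 1) + 1 := by exact_mod_cast ds_pred hn b c
  have h3 : |(1 - (ds b (c + 1) : ℝ) / (2 * L)) - (1 - (ds b c : ℝ) / (2 * L))| ≤ 1 / (2 * L) := by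
    have e : (1 - (ds b (c + 1) : ℝ) / (2 * L)) - (1 - (ds b c : ℝ) / (2 * L)) =
        ((ds b c : ℝ) - ds b (c + 1)) / (2 * L) := by ring
    rw [e, abs_div, abs_of_pos hL']
    refine div_le_div_of_nonneg_right ?_ hL'.le
    rw [abs_le]
    constructor <;> linarith
  unfold tent
  refine le_trans ?_ h3
  have h4 := abs_max_sub_max_le_max 0 (1 - (ds b (c + 1) : ℝ) / (2 * L)) 0
    (1 - (ds b c : ℝ) / (2 * L))
  rw [sub_self, abs_zero] at h4
  exact h4.trans (max_le (abs_nonneg _) le_rfl)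

theorem tent_slab {L : ℕ} (hL : 1 ≤ L) (hn : 2 * L < n) {b c : ZMod n} (hc : c ∈ slab b L) :
    1 / 2 ≤ tent L b c := by
  have hL' : (0 : ℝ) < 2 * L := by
    have : (1 : ℝ) ≤ L := by exact_mod_cast hL
    linarith
  have h1 : (ds b c : ℝ) ≤ L := by exact_mod_cast ds_slab hn hc
  refine le_trans ?_ (le_max_right _ _)
  have : (ds b c : ℝ) / (2 * L) ≤ 1 / 2 := by
    rw [div_le_div_iff₀ hL' (by norm_num)]
    linarith
  linarith

theorem tent_sum {L : ℕ} (hL : 1 ≤ L) (b : ZMod n) : ∑ c, tent L b c ≤ 5 * L := by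
  have hL1 : (1 : ℝ) ≤ L := by exact_mod_cast hL
  have hL' : (0 : ℝ) < 2 * L := by linarith
  have h1 : ∀ c, tent L b c ≤ if ds b c ≤ 2 * L then 1 else 0 := by
    intro c
    unfold tent
    split_ifs with h
    · refine max_le (by norm_num) ?_
      have : 0 ≤ (ds b c : ℝ) / (2 * L) := by positivity
      linarith
    · refine max_le le_rfl ?_
      have h2 : (2 * L : ℝ) < ds b c := by
        push Not at h
        exact_mod_cast h
      have : 1 ≤ (ds b c : ℝ) / (2 * L) := by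
        rw [le_div_iff₀ hL']
        linarith
      linarith
  have h2 : ∑ c, tent L b c ≤ ((Finset.univ.filter fun c : ZMod n => ds b c ≤ 2 * L).card : ℝ) := by
    refine (Finset.sum_le_sum fun c _ => h1 c).trans (le_of_eq ?_)
    rw [Finset.sum_boole]
  have h3 : (Finset.univ.filter fun c : ZMod n => ds b c ≤ 2 * L).card ≤
      (Finset.Icc (-(2 * L : ℤ)) (2 * L)).card := by
    refine Finset.card_le_card_of_injOn (fun c => (c - b).valMinAbs) ?_ ?_
    · intro c hc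
      rw [Finset.mem_coe, Finset.mem_filter] at hc
      have := hc.2
      unfold ds at this
      rw [Finset.mem_coe, Finset.mem_Icc]
      change -(2 * L : ℤ) ≤ (c - b).valMinAbs ∧ (c - b).valMinAbs ≤ 2 * L
      omega
    · intro c _ c' _ h
      have := ZMod.injective_valMinAbs h
      exact sub_left_injective this
  rw [Int.card_Icc] at h3
  have h4 : ((2 * L : ℤ) + 1 - -(2 * L)).toNat ≤ 5 * L := by omega
  have h5 : ((Finset.univ.filter fun c : ZMod n => ds b c ≤ 2 * L).card : ℝ) ≤ 5 * L := by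
    exact_mod_cast h3.trans h4
  exact h2.trans h5

theorem sum_range_zmod (f : ZMod n → ℝ) : ∑ j ∈ Finset.range n, f (j : ZMod n) = ∑ c, f c := by
  refine Finset.sum_nbij' (fun j => (j : ZMod n)) (fun c => c.val) ?_ ?_ ?_ ?_ ?_
  · intro j _
    exact Finset.mem_univ _
  · intro c _
    exact Finset.mem_range.2 (ZMod.val_lt c)
  · intro j hj
    exact ZMod.val_cast_of_lt (Finset.mem_range.1 hj)
  · intro c _
    exact ZMod.natCast_zmod_val c
  · intro j _
    rfl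

/-- a function of mean zero is a difference of a bounded function -/
theorem primitive (hn : 1 < n) (τ : ZMod n → ℝ) (hτ : ∀ c, 0 ≤ τ c) (T : ℝ) (hT : T = ∑ c, τ c) :
    ∃ θ : ZMod n → ℝ, (∀ c, |θ c| ≤ T) ∧ ∀ c, θ (c + 1) - θ c = τ c - T / n := by
  haveI : Fact (1 < n) := ⟨hn⟩
  have hn0 : (0 : ℝ) < n := by
    have : 0 < n := by omega
    exact_mod_cast this
  refine ⟨fun c => ∑ j ∈ Finset.range c.val, (τ (j : ZMod n) - T / n), ?_, ?_⟩
  · intro c
    have hc : c.val < n := ZMod.val_lt c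
    show |∑ j ∈ Finset.range c.val, (τ (j : ZMod n) - T / n)| ≤ T
    rw [Finset.sum_sub_distrib, Finset.sum_const, Finset.card_range, nsmul_eq_mul]
    have h0 : 0 ≤ ∑ j ∈ Finset.range c.val, τ (j : ZMod n) := Finset.sum_nonneg fun j _ => hτ _
    have h1 : ∑ j ∈ Finset.range c.val, τ (j : ZMod n) ≤ T := by
      rw [hT, ← sum_range_zmod]
      refine Finset.sum_le_sum_of_subset_of_nonneg ?_ fun j _ _ => hτ _
      exact Finset.range_subset_range.2 hc.le
    have hT0 : 0 ≤ T := h0.trans h1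
    have h2 : 0 ≤ (c.val : ℝ) * (T / n) := by positivity
    have h3 : (c.val : ℝ) * (T / n) ≤ T := by
      have : (c.val : ℝ) ≤ n := by exact_mod_cast hc.le
      calc (c.val : ℝ) * (T / n) ≤ n * (T / n) := mul_le_mul_of_nonneg_right this (by positivity)
        _ = T := by field_simp
    rw [abs_le]
    constructor <;> linarith
  · intro c
    by_cases h : c.val + 1 < n
    · have h1 : (c + 1).val = c.val + 1 := by
        rw [ZMod.val_add_of_lt (by rw [ZMod.val_one]; exact h), ZMod.val_one]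
      show ∑ j ∈ Finset.range (c + 1).val, (τ (j : ZMod n) - T / n) -
        ∑ j ∈ Finset.range c.val, (τ (j : ZMod n) - T / n) = _
      rw [h1, Finset.sum_range_succ, ZMod.natCast_zmod_val]
      ring
    · have hc : c.val + 1 = n := by
        have := ZMod.val_lt c
        omega
      have h1 : c + 1 = 0 := by
        have h2 : ((c.val + 1 : ℕ) : ZMod n) = 0 := by rw [hc, ZMod.natCast_self]
        rw [Nat.cast_add, Nat.cast_one, ZMod.natCast_zmod_val] at h2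
        exact h2
      show ∑ j ∈ Finset.range (c + 1).val, (τ (j : ZMod n) - T / n) -
        ∑ j ∈ Finset.range c.val, (τ (j : ZMod n) - T / n) = _
      rw [h1, ZMod.val_zero, Finset.range_zero, Finset.sum_empty]
      have h2 : ∑ j ∈ Finset.range n, (τ (j : ZMod n) - T / n) = 0 := by
        rw [Finset.sum_sub_distrib, sum_range_zmod, ← hT, Finset.sum_const, Finset.card_range,
          nsmul_eq_mul]
        field_simp
        ring
      have h3 : Finset.range n = Finset.range (c.val + 1) := by rw [hc]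
      rw [h3, Finset.sum_range_succ, ZMod.natCast_zmod_val] at h2
      linarith

end

/-- **JOB COM.** -/
theorem com : S_COM := by
  intro d n _ i L hL hn E η hη g F hF b
  have hL1 : (1 : ℝ) ≤ L := by exact_mod_cast hL
  have hnL : 2 * L < n := by nlinarith
  have hn3 : 3 ≤ n := by nlinarith
  have hnR : (8 : ℝ) * L ^ 2 ≤ n := by
    have : 8 * L ^ 2 ≤ n := by omega
    exact_mod_cast this
  have hn0 : (0 : ℝ) < n := by nlinarith
  obtain ⟨T, hT⟩ : ∃ T : ℝ, T = ∑ c, tent L b c := ⟨_, rfl⟩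
  have hT5 : T ≤ 5 * L := by rw [hT]; exact tent_sum hL b
  have hT0 : 0 ≤ T := by rw [hT]; exact Finset.sum_nonneg fun c _ => tent_nonneg L b c
  obtain ⟨θ, hθ1, hθ2⟩ := primitive (by omega : 1 < n) (tent L b) (tent_nonneg L b) T hT
  obtain ⟨μ, hμ⟩ : ∃ μ : ℝ, μ = T / n := ⟨_, rfl⟩
  have hμ0 : 0 ≤ μ := by rw [hμ]; positivity
  have hμL : μ ≤ 5 / (8 * L) := by
    rw [hμ, div_le_div_iff₀ hn0 (by positivity)]
    nlinarith
  obtain ⟨s, hsd⟩ : ∃ s : Tor d n → ℝ, s = fun x => θ (x i + 1) - θ (x i - 1) := ⟨_, rfl⟩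
  have hs : ∀ x, s x = θ (x i + 1) - θ (x i - 1) := fun x => by rw [hsd]
  have hst : ∀ x, s x = tent L b (x i) + tent L b (x i - 1) - 2 * μ := by
    intro x
    have h1 := hθ2 (x i)
    have h2 := hθ2 (x i - 1)
    rw [sub_add_cancel] at h2
    rw [hs x, hμ]
    linarith
  have h := comm_le i θ (5 * L) (fun c => (hθ1 c).trans hT5) E η hη g F hF s hs
  set A := ∑ x, ‖g x‖ ^ 2 with hA
  set P := Real.sqrt (∑ x, ‖F x‖ ^ 2) * Real.sqrt A with hP
  have hA0 : 0 ≤ A := Finset.sum_nonneg fun x _ => sq_nonneg _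
  have hP0 : 0 ≤ P := mul_nonneg (Real.sqrt_nonneg _) (Real.sqrt_nonneg _)
  -- the second difference
  have hsec : -(2 / L * A) ≤ ∑ x, (2 * s x - s (x - ev i) - s (x + ev i)) * ‖g x‖ ^ 2 := by
    rw [hA, Finset.mul_sum, ← Finset.sum_neg_distrib]
    refine Finset.sum_le_sum fun x _ => ?_
    have h1 := tent_lip hL hn3 b (x i)
    have h2 := tent_lip hL hn3 b (x i - 1)
    have h3 := tent_lip hL hn3 b (x i - 1 - 1)
    rw [sub_add_cancel] at h2 h3
    have e : 2 * s x - s (x - ev i) - s (x + ev i) =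
        (tent L b (x i - 1) - tent L b (x i - 1 - 1)) - (tent L b (x i + 1) - tent L b (x i)) := by
      rw [hst x, hst (x - ev i), hst (x + ev i), ev_sub, ev_add, add_sub_cancel_right]
      ring
    have h4 : -(2 / L) ≤ 2 * s x - s (x - ev i) - s (x + ev i) := by
      rw [e]
      rw [abs_le] at h1 h3
      have h5 : (1 : ℝ) / (2 * L) ≤ 1 / L := by
        rw [div_le_div_iff₀ (by positivity) (by positivity)]
        linarith
      have h6 : (2 : ℝ) / L = 1 / L + 1 / L := by ring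
      linarith [h1.2, h3.1]
    have h5 := mul_le_mul_of_nonneg_right h4 (sq_nonneg ‖g x‖)
    linarith
  -- the norm of `D g`
  have hD : ∑ x, ‖g (x + ev i) - g (x - ev i)‖ ^ 2 ≤ 4 * A := by
    have t1 : ∑ x, ‖g (x + ev i)‖ ^ 2 = A := sum_shift (fun x => ‖g x‖ ^ 2) (ev i)
    have t2 : ∑ x, ‖g (x - ev i)‖ ^ 2 = A := by
      have := sum_shift (fun x => ‖g x‖ ^ 2) (-(ev i : Tor d n))
      simpa only [← sub_eq_add_neg] using this
    calc ∑ x, ‖g (x + ev i) - g (x - ev i)‖ ^ 2 ≤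
          ∑ x, (2 * ‖g (x + ev i)‖ ^ 2 + 2 * ‖g (x - ev i)‖ ^ 2) := by
          refine Finset.sum_le_sum fun x _ => ?_
          have h2 := pow_le_pow_left₀ (norm_nonneg _) (norm_sub_le (g (x + ev i)) (g (x - ev i))) 2
          nlinarith [sq_nonneg (‖g (x + ev i)‖ - ‖g (x - ev i)‖)]
      _ = 4 * A := by
          rw [Finset.sum_add_distrib, ← Finset.mul_sum, ← Finset.mul_sum, t1, t2]
          ring
  have hDt : ∑ x, (tent L b (x i) + tent L b (x i - 1)) * ‖g (x + ev i) - g (x - ev i)‖ ^ 2 =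
      ∑ x, s x * ‖g (x + ev i) - g (x - ev i)‖ ^ 2 +
        2 * μ * ∑ x, ‖g (x + ev i) - g (x - ev i)‖ ^ 2 := by
    rw [Finset.mul_sum, ← Finset.sum_add_distrib]
    refine Finset.sum_congr rfl fun x _ => ?_
    rw [hst x]
    ring
  have hsl : ∑ x, Set.indicator {x : Tor d n | x i ∈ slab b L}
      (fun x => ‖g (x + ev i) - g (x - ev i)‖ ^ 2) x ≤
      2 * ∑ x, (tent L b (x i) + tent L b (x i - 1)) * ‖g (x + ev i) - g (x - ev i)‖ ^ 2 := by
    rw [Finset.mul_sum]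
    refine Finset.sum_le_sum fun x _ => ?_
    have h0 := tent_nonneg L b (x i - 1)
    have h0' := tent_nonneg L b (x i)
    by_cases hx : x i ∈ slab b L
    · rw [Set.indicator_of_mem (show x ∈ {x : Tor d n | x i ∈ slab b L} from hx)]
      have h1 := tent_slab hL hnL hx
      nlinarith [sq_nonneg ‖g (x + ev i) - g (x - ev i)‖]
    · rw [Set.indicator_of_notMem (show x ∉ {x : Tor d n | x i ∈ slab b L} from hx)]
      positivity
  have hμA : 2 * μ * ∑ x, ‖g (x + ev i) - g (x - ev i)‖ ^ 2 ≤ 5 / L * A := by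
    calc 2 * μ * ∑ x, ‖g (x + ev i) - g (x - ev i)‖ ^ 2 ≤ 2 * μ * (4 * A) :=
          mul_le_mul_of_nonneg_left hD (by positivity)
      _ = μ * (8 * A) := by ring
      _ ≤ 5 / (8 * L) * (8 * A) := mul_le_mul_of_nonneg_right hμL (by positivity)
      _ = 5 / L * A := by field_simp
  have hfin : ∑ x, Set.indicator {x : Tor d n | x i ∈ slab b L}
      (fun x => ‖g (x + ev i) - g (x - ev i)‖ ^ 2) x ≤
      2 * (8 * (5 * L) * (P + η * A) + 2 / L * A + 5 / L * A) := by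
    refine hsl.trans ?_
    rw [hDt]
    linarith
  refine hfin.trans ?_
  have e1 : 2 * (8 * (5 * L) * (P + η * A) + 2 / L * A + 5 / L * A) =
      80 * (L * η * A + L * P) + 14 * (A / L) := by
    field_simp
    ring
  rw [e1]
  have p1 : 0 ≤ (L : ℝ) * η * A := by positivity
  have p2 : 0 ≤ (L : ℝ) * P := by positivity
  have p3 : 0 ≤ A / (L : ℝ) := by positivity
  linarith

end Pool.Agent.Q150.HB
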