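import Pool.Agent.Q218.HB.Stm

/-!
# Project HB: job KGB
-/

set_option autoImplicit false

open MeasureTheory Matrix

namespace Pool.Agent.Q150.HB

open Pool.Agent.Q218.HB

/-- the sum of the squares of the entries of `F D Fᴴ`, `F` unitary, `D` diagonal -/
theorem hs_diag {ι : Type} [Fintype ι] [DecidableEq ι] (F : Matrix ι ι ℂ)
    (h2 : F.conjTranspose * F = 1) (l : ι → ℂ) :
    ∑ x, ∑ y, ‖(F * Matrix.diagonal l * F.conjTranspose) x y‖ ^ 2 = ∑ k, ‖l k‖ ^ 2 := by
  have key : ∀ M : Matrix ι ι ℂ, ((∑ x, ∑ y, ‖M x y‖ ^ 2 : ℝ) : ℂ) = (M * M.conjTranspose).trace := by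
    intro M
    rw [Matrix.trace]
    push_cast
    refine Finset.sum_congr rfl fun x _ => ?_
    rw [Matrix.diag_apply, Matrix.mul_apply]
    refine Finset.sum_congr rfl fun y _ => ?_
    rw [Matrix.conjTranspose_apply]
    have := Complex.mul_conj' (M x y)
    rw [← this]
    rfl
  have h3 : (F * Matrix.diagonal l * F.conjTranspose) *
      (F * Matrix.diagonal l * F.conjTranspose).conjTranspose =
      F * (Matrix.diagonal l * (Matrix.diagonal l).conjTranspose) * F.conjTranspose := by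
    rw [Matrix.conjTranspose_mul, Matrix.conjTranspose_mul, Matrix.conjTranspose_conjTranspose]
    calc F * Matrix.diagonal l * F.conjTranspose * (F * ((Matrix.diagonal l).conjTranspose * F.conjTranspose))
        = F * Matrix.diagonal l * (F.conjTranspose * F) * ((Matrix.diagonal l).conjTranspose * F.conjTranspose) := by
          simp only [Matrix.mul_assoc]
      _ = _ := by rw [h2, Matrix.mul_one]; simp only [Matrix.mul_assoc]
  have h4 : ((∑ x, ∑ y, ‖(F * Matrix.diagonal l * F.conjTranspose) x y‖ ^ 2 : ℝ) : ℂ) =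
      ((∑ k, ‖l k‖ ^ 2 : ℝ) : ℂ) := by
    rw [key, h3, Matrix.trace_mul_comm, ← Matrix.mul_assoc, h2, Matrix.one_mul,
      Matrix.diagonal_conjTranspose, Matrix.diagonal_mul_diagonal, Matrix.trace_diagonal]
    push_cast
    refine Finset.sum_congr rfl fun k _ => ?_
    rw [← Complex.mul_conj' (l k)]
    rfl
  exact_mod_cast h4

/-- `η/(t² + η²)` as a Laplace transform -/
theorem lap (η t : ℝ) (hη : 0 < η) :
    IntegrableOn (fun q : ℝ => Complex.exp ((-(η : ℂ) - (t : ℂ) * Complex.I) * q)) (Set.Ioi 0) ∧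
    (∫ q in Set.Ioi (0 : ℝ), Complex.exp ((-(η : ℂ) - (t : ℂ) * Complex.I) * q)).re =
      η / (t ^ 2 + η ^ 2) := by
  have ha : (-(η : ℂ) - (t : ℂ) * Complex.I).re < 0 := by
    simp
    exact hη
  refine ⟨integrableOn_exp_mul_complex_Ioi ha 0, ?_⟩
  rw [integral_exp_mul_complex_Ioi ha 0]
  simp only [Complex.ofReal_zero, mul_zero, Complex.exp_zero]
  rw [neg_div, ← div_neg, one_div, Complex.inv_re]
  have e1 : (-(-(η : ℂ) - (t : ℂ) * Complex.I)).re = η := by simp
  have e2 : Complex.normSq (-(-(η : ℂ) - (t : ℂ) * Complex.I)) = t ^ 2 + η ^ 2 := by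
    rw [Complex.normSq_apply]
    simp
    ring
  rw [e1, e2]

/-- the phase -/
noncomputable def ph (n : ℕ) (q : ℝ) (c : ZMod n) : ℂ :=
  Complex.exp (2 * (q : ℂ) * Complex.I * (Real.cos (2 * Real.pi * (c.val : ℝ) / n) : ℝ))

theorem ph_norm (n : ℕ) (q : ℝ) (c : ZMod n) : ‖ph n q c‖ = 1 := by
  unfold ph
  have h : 2 * (q : ℂ) * Complex.I * (Real.cos (2 * Real.pi * (c.val : ℝ) / n) : ℝ) =
      ((2 * q * Real.cos (2 * Real.pi * (c.val : ℝ) / n) : ℝ) : ℂ) * Complex.I := by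
    push_cast
    ring
  rw [h, Complex.norm_exp_ofReal_mul_I]

theorem bn_eq (n : ℕ) [NeZero n] (q : ℝ) : bn n q = ((n : ℂ))⁻¹ * ∑ c : ZMod n, ph n q c := rfl

theorem bn_norm (n : ℕ) [NeZero n] (q : ℝ) : ‖∑ c : ZMod n, ph n q c‖ = n * ‖bn n q‖ := by
  have hn : (n : ℂ) ≠ 0 := by exact_mod_cast NeZero.ne n
  have hn' : (n : ℝ) ≠ 0 := by exact_mod_cast NeZero.ne n
  rw [bn_eq, norm_mul, norm_inv, Complex.norm_natCast, ← mul_assoc, mul_inv_cancel₀ hn', one_mul]

theorem bn_le_one (n : ℕ) [NeZero n] (q : ℝ) : ‖bn n q‖ ≤ 1 := by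
  have hn' : (0 : ℝ) < n := by exact_mod_cast NeZero.pos n
  have h1 : ‖∑ c : ZMod n, ph n q c‖ ≤ n := by
    refine (norm_sum_le _ _).trans ?_
    simp only [ph_norm, Finset.sum_const, Finset.card_univ, ZMod.card, nsmul_eq_mul, mul_one]
    exact le_refl _
  rw [bn_norm] at h1
  nlinarith

theorem bn_cont (n : ℕ) [NeZero n] : Continuous fun q : ℝ => bn n q := by
  unfold bn
  fun_prop

/-- the sum over the torus -/
theorem sum_torus {d n : ℕ} [NeZero n] (i : Fin d) (w : ZMod n → ℝ) (q : ℝ) :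
    ∑ k : Tor d n, ((w (k i) : ℝ) : ℂ) * ∏ j, ph n q (k j) =
      (∑ c, ((w c : ℝ) : ℂ) * ph n q c) * (∑ c, ph n q c) ^ (d - 1) := by
  have h1 : ∀ k : Tor d n, ((w (k i) : ℝ) : ℂ) * ∏ j, ph n q (k j) =
      ∏ j, (if j = i then ((w (k j) : ℝ) : ℂ) * ph n q (k j) else ph n q (k j)) := by
    intro k
    rw [← Finset.mul_prod_erase Finset.univ _ (Finset.mem_univ i),
      ← Finset.mul_prod_erase Finset.univ (fun j => if j = i then ((w (k j) : ℝ) : ℂ) * ph n q (k j)
        else ph n q (k j)) (Finset.mem_univ i)]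
    rw [if_pos rfl, mul_assoc]
    congr 2
    refine Finset.prod_congr rfl fun j hj => ?_
    rw [if_neg (Finset.ne_of_mem_erase hj)]
  have h2 := Finset.prod_univ_sum (fun _ : Fin d => (Finset.univ : Finset (ZMod n)))
    (fun (j : Fin d) (c : ZMod n) => if j = i then ((w c : ℝ) : ℂ) * ph n q c else ph n q c)
  rw [Fintype.piFinset_univ] at h2
  simp_rw [h1]
  rw [← h2, ← Finset.mul_prod_erase Finset.univ _ (Finset.mem_univ i)]
  congr 1
  · exact Finset.sum_congr rfl fun c _ => by rw [if_pos rfl]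
  · rw [Finset.prod_congr rfl (g := fun _ => ∑ c, ph n q c) fun j hj => ?_]
    · rw [Finset.prod_const, Finset.card_erase_of_mem (Finset.mem_univ i), Finset.card_univ,
        Fintype.card_fin]
    · exact Finset.sum_congr rfl fun c _ => by rw [if_neg (Finset.ne_of_mem_erase hj)]

theorem exp_en {d n : ℕ} [NeZero n] (k : Tor d n) (E η q : ℝ) :
    Complex.exp ((-(η : ℂ) - ((en k - E : ℝ) : ℂ) * Complex.I) * q) =
      ((Real.exp (-(η * q)) : ℝ) : ℂ) * Complex.exp (((q * E : ℝ) : ℂ) * Complex.I) *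
        ∏ j, ph n q (k j) := by
  unfold ph
  rw [← Complex.exp_sum, Complex.ofReal_exp, ← Complex.exp_add, ← Complex.exp_add]
  congr 1
  rw [← Finset.mul_sum]
  unfold en
  push_cast
  ring

theorem int_bd (n m : ℕ) [NeZero n] (η : ℝ) (hη : 0 < η) :
    IntegrableOn (fun q : ℝ => Real.exp (-(η * q)) * ‖bn n q‖ ^ m) (Set.Ioi 0) := by
  have h0 : IntegrableOn (fun q : ℝ => Real.exp (-η * q)) (Set.Ioi 0) := by
    exact exp_neg_integrableOn_Ioi 0 hη
  refine Integrable.mono' h0 ?_ ?_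
  · have : Continuous fun q : ℝ => Real.exp (-(η * q)) * ‖bn n q‖ ^ m := by
      have := bn_cont n
      fun_prop
    exact this.aestronglyMeasurable
  · refine Filter.Eventually.of_forall fun q => ?_
    rw [Real.norm_eq_abs, abs_mul, abs_pow, abs_norm, abs_of_pos (Real.exp_pos _)]
    calc Real.exp (-(η * q)) * ‖bn n q‖ ^ m ≤ Real.exp (-(η * q)) * 1 :=
          mul_le_mul_of_nonneg_left (pow_le_one₀ (norm_nonneg _) (bn_le_one n q)) (Real.exp_pos _).le
      _ = Real.exp (-η * q) := by rw [mul_one, neg_mul]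

/-- the sum over the energies -/
theorem sum_bd {d n : ℕ} [NeZero n] (i : Fin d) (w : ZMod n → ℝ) (hw : ∀ c, 0 ≤ w c) (E η : ℝ)
    (hη : 0 < η) :
    ∑ k : Tor d n, w (k i) * (η / ((en k - E) ^ 2 + η ^ 2)) ≤
      (∑ c, w c) * (n : ℝ) ^ (d - 1) * In n (d - 1) η := by
  have hI : ∀ k : Tor d n, IntegrableOn (fun q : ℝ => ((w (k i) : ℝ) : ℂ) *
      Complex.exp ((-(η : ℂ) - ((en k - E : ℝ) : ℂ) * Complex.I) * q)) (Set.Ioi 0) :=
    fun k => (lap η (en k - E) hη).1.const_mul _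
  have h1 : ∑ k : Tor d n, w (k i) * (η / ((en k - E) ^ 2 + η ^ 2)) =
      (∫ q in Set.Ioi (0 : ℝ), ∑ k : Tor d n, ((w (k i) : ℝ) : ℂ) *
        Complex.exp ((-(η : ℂ) - ((en k - E : ℝ) : ℂ) * Complex.I) * q)).re := by
    rw [integral_finset_sum _ fun k _ => hI k, Complex.re_sum]
    refine Finset.sum_congr rfl fun k _ => ?_
    rw [integral_const_mul, Complex.re_ofReal_mul, (lap η (en k - E) hη).2]
  rw [h1]
  refine (Complex.re_le_norm _).trans ((norm_integral_le_integral_norm _).trans ?_)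
  unfold In
  rw [← integral_const_mul]
  refine setIntegral_mono_on ?_ ((int_bd n (d - 1) η hη).const_mul _) measurableSet_Ioi fun q hq => ?_
  · exact (integrable_finset_sum _ fun k _ => hI k).norm
  · have h2 : ∑ k : Tor d n, ((w (k i) : ℝ) : ℂ) *
        Complex.exp ((-(η : ℂ) - ((en k - E : ℝ) : ℂ) * Complex.I) * q) =
        (((Real.exp (-(η * q)) : ℝ) : ℂ) * Complex.exp (((q * E : ℝ) : ℂ) * Complex.I)) *
          ∑ k : Tor d n, ((w (k i) : ℝ) : ℂ) * ∏ j, ph n q (k j) := by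
      rw [Finset.mul_sum]
      refine Finset.sum_congr rfl fun k _ => ?_
      rw [exp_en]
      ring
    rw [h2, sum_torus, norm_mul, norm_mul, norm_mul, norm_pow, bn_norm, Complex.norm_exp_ofReal_mul_I,
      Complex.norm_real, Real.norm_eq_abs, abs_of_pos (Real.exp_pos _), mul_one, mul_pow]
    have h3 : ‖∑ c, ((w c : ℝ) : ℂ) * ph n q c‖ ≤ ∑ c, w c := by
      refine (norm_sum_le _ _).trans (le_of_eq ?_)
      refine Finset.sum_congr rfl fun c _ => ?_
      rw [norm_mul, ph_norm, mul_one, Complex.norm_real, Real.norm_eq_abs, abs_of_nonneg (hw c)]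
    calc Real.exp (-(η * q)) * (‖∑ c, ((w c : ℝ) : ℂ) * ph n q c‖ * ((n : ℝ) ^ (d - 1) * ‖bn n q‖ ^ (d - 1)))
        ≤ Real.exp (-(η * q)) * ((∑ c, w c) * ((n : ℝ) ^ (d - 1) * ‖bn n q‖ ^ (d - 1))) := by
          refine mul_le_mul_of_nonneg_left ?_ (Real.exp_pos _).le
          exact mul_le_mul_of_nonneg_right h3 (by positivity)
      _ = _ := by ring

/-- **JOB KGB.** -/
theorem kgb : S_KGB := by
  intro hF d n _ i E η ε hη hε
  obtain ⟨F, h1, h2, h3, h4, h5⟩ := hF d n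
  have hn : (n : ℝ) ≠ 0 := by exact_mod_cast NeZero.ne n
  have hd : 0 < d := i.pos
  set z : ℂ := pt E η with hz
  have hzim : z.im = η := by rw [hz]; unfold pt; simp
  have hzre : z.re = E := by rw [hz]; unfold pt; simp
  -- the resolvent
  have hne : ∀ k : Tor d n, ((en k : ℝ) : ℂ) - z ≠ 0 := by
    intro k h0
    have := congrArg Complex.im h0
    rw [Complex.sub_im, Complex.ofReal_im, hzim, Complex.zero_im] at this
    linarith
  have hG : G hop (fun _ => 0) z = F * Matrix.diagonal (fun k => (((en k : ℝ) : ℂ) - z)⁻¹) * F.conjTranspose := by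
    unfold G
    refine Matrix.inv_eq_right_inv ?_
    have e1 : (Hm hop (fun _ => 0) - z • (1 : Matrix (Tor d n) (Tor d n) ℂ)) * F =
        F * Matrix.diagonal (fun k => ((en k : ℝ) : ℂ) - z) := by
      rw [Matrix.sub_mul, h4, Matrix.smul_mul, Matrix.one_mul]
      have e2 : Matrix.diagonal (fun k : Tor d n => ((en k : ℝ) : ℂ) - z) =
          Matrix.diagonal (fun k => ((en k : ℝ) : ℂ)) - z • (1 : Matrix (Tor d n) (Tor d n) ℂ) := by
        rw [← Matrix.diagonal_one, ← Matrix.diagonal_smul, Matrix.diagonal_sub]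
        congr 1
        funext k
        simp
      rw [e2, Matrix.mul_sub, Matrix.mul_smul, Matrix.mul_one]
    rw [← Matrix.mul_assoc, ← Matrix.mul_assoc, e1, Matrix.mul_assoc F, Matrix.diagonal_mul_diagonal]
    have e3 : Matrix.diagonal (fun k : Tor d n => (((en k : ℝ) : ℂ) - z) * (((en k : ℝ) : ℂ) - z)⁻¹) = 1 := by
      rw [← Matrix.diagonal_one]
      congr 1
      funext k
      exact mul_inv_cancel₀ (hne k)
    rw [e3, Matrix.mul_one, h1]
  -- the matrix K
  set s : ZMod n → ℝ := fun c => 4 * Real.sin (2 * Real.pi * (c.val : ℝ) / n) ^ 2 + ε ^ 2 with hs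
  have hs0 : ∀ c, 0 < s c := fun c => by rw [hs]; positivity
  have hK : Km i ε = F * Matrix.diagonal (fun k => ((ε ^ 2 / s (k i) : ℝ) : ℂ)) * F.conjTranspose := by
    unfold Km
    have e1 : (Hm (two i) fun _ => ε ^ 2)⁻¹ =
        F * Matrix.diagonal (fun k => (((s (k i) : ℝ) : ℂ))⁻¹) * F.conjTranspose := by
      refine Matrix.inv_eq_right_inv ?_
      rw [← Matrix.mul_assoc, ← Matrix.mul_assoc, h5 i (ε ^ 2), Matrix.mul_assoc F,
        Matrix.diagonal_mul_diagonal]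
      have e3 : Matrix.diagonal (fun k : Tor d n =>
          ((4 * Real.sin (2 * Real.pi * ((k i).val : ℝ) / n) ^ 2 + ε ^ 2 : ℝ) : ℂ) *
            (((s (k i) : ℝ) : ℂ))⁻¹) = 1 := by
        rw [← Matrix.diagonal_one]
        congr 1
        funext k
        refine mul_inv_cancel₀ ?_
        exact_mod_cast (hs0 (k i)).ne'
      rw [e3, Matrix.mul_one, h1]
    rw [e1, ← Matrix.smul_mul, ← Matrix.mul_smul, ← Matrix.diagonal_smul]
    congr 3
    funext k
    simp only [Pi.smul_apply, smul_eq_mul]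
    push_cast
    rw [div_eq_mul_inv]
  have hKG : KG i ε z = F * Matrix.diagonal (fun k => ((ε ^ 2 / s (k i) : ℝ) : ℂ) *
      (((en k : ℝ) : ℂ) - z)⁻¹) * F.conjTranspose := by
    unfold KG
    rw [hK, hG]
    calc F * Matrix.diagonal (fun k => ((ε ^ 2 / s (k i) : ℝ) : ℂ)) * F.conjTranspose *
          (F * Matrix.diagonal (fun k => (((en k : ℝ) : ℂ) - z)⁻¹) * F.conjTranspose)
        = F * Matrix.diagonal (fun k => ((ε ^ 2 / s (k i) : ℝ) : ℂ)) * (F.conjTranspose * F) *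
          (Matrix.diagonal (fun k => (((en k : ℝ) : ℂ) - z)⁻¹) * F.conjTranspose) := by
          simp only [Matrix.mul_assoc]
      _ = F * (Matrix.diagonal (fun k => ((ε ^ 2 / s (k i) : ℝ) : ℂ)) *
          Matrix.diagonal (fun k => (((en k : ℝ) : ℂ) - z)⁻¹)) * F.conjTranspose := by
          rw [h2, Matrix.mul_one]; simp only [Matrix.mul_assoc]
      _ = _ := by rw [Matrix.diagonal_mul_diagonal]
  rw [hKG, hs_diag F h2]
  have h6 : ∀ k : Tor d n, ‖((ε ^ 2 / s (k i) : ℝ) : ℂ) * (((en k : ℝ) : ℂ) - z)⁻¹‖ ^ 2 =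
      (ε ^ 2 / s (k i)) ^ 2 * (1 / ((en k - E) ^ 2 + η ^ 2)) := by
    intro k
    rw [norm_mul, norm_inv, mul_pow, Complex.norm_real, Real.norm_eq_abs, sq_abs, inv_pow,
      ← Complex.normSq_eq_norm_sq, Complex.normSq_apply, one_div]
    have e : (((en k : ℝ) : ℂ) - z).re * (((en k : ℝ) : ℂ) - z).re +
        (((en k : ℝ) : ℂ) - z).im * (((en k : ℝ) : ℂ) - z).im = (en k - E) ^ 2 + η ^ 2 := by
      rw [Complex.sub_re, Complex.sub_im, Complex.ofReal_re, Complex.ofReal_im, hzre, hzim]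
      ring
    rw [e]
  simp_rw [h6]
  have h7 := sum_bd i (fun c => (ε ^ 2 / s c) ^ 2) (fun c => sq_nonneg _) E η hη
  have h8 : η ^ 2 * ∑ k : Tor d n, (ε ^ 2 / s (k i)) ^ 2 * (1 / ((en k - E) ^ 2 + η ^ 2)) =
      η * ∑ k : Tor d n, (ε ^ 2 / s (k i)) ^ 2 * (η / ((en k - E) ^ 2 + η ^ 2)) := by
    rw [Finset.mul_sum, Finset.mul_sum]
    exact Finset.sum_congr rfl fun k _ => by ring
  rw [h8]
  have h9 : (n : ℝ) ^ d = (n : ℝ) ^ (d - 1) * n := by
    rw [← pow_succ, Nat.sub_add_cancel hd]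
  calc η * ∑ k : Tor d n, (ε ^ 2 / s (k i)) ^ 2 * (η / ((en k - E) ^ 2 + η ^ 2))
      ≤ η * ((∑ c, (ε ^ 2 / s c) ^ 2) * (n : ℝ) ^ (d - 1) * In n (d - 1) η) :=
        mul_le_mul_of_nonneg_left h7 hη.le
    _ = (n : ℝ) ^ d * η * ((n : ℝ)⁻¹ * ∑ c, (ε ^ 2 / s c) ^ 2) * In n (d - 1) η := by
        rw [h9]
        field_simp
    _ = _ := rfl

end Pool.Agent.Q150.HB
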