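import Pool.Agent.Q150.HB.COM

/-!
# Project HB: job SLB
-/

set_option autoImplicit false

open MeasureTheory Matrix

namespace Pool.Agent.Q150.HB

open Pool.Agent.Q218.HB

section

variable {d n : ℕ} [NeZero n]

/-- the difference operator -/
noncomputable def Df (e : Tor d n) (u : Tor d n → ℂ) (x : Tor d n) : ℂ := u (x + e) - u (x - e)

theorem df_adj (e : Tor d n) (u v : Tor d n → ℂ) :
    ∑ x, (starRingEnd ℂ) (u x) * Df e v x = -∑ x, (starRingEnd ℂ) (Df e u x) * v x := by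
  have h1 : ∑ x, (starRingEnd ℂ) (u x) * v (x + e) = ∑ x, (starRingEnd ℂ) (u (x - e)) * v x := by
    rw [← sum_shift (fun x => (starRingEnd ℂ) (u (x - e)) * v x) e]
    exact Finset.sum_congr rfl fun x _ => by rw [add_sub_cancel_right]
  have h2 : ∑ x, (starRingEnd ℂ) (u x) * v (x - e) = ∑ x, (starRingEnd ℂ) (u (x + e)) * v x := by
    rw [← sum_shift (fun x => (starRingEnd ℂ) (u x) * v (x - e)) e]
    exact Finset.sum_congr rfl fun x _ => by rw [add_sub_cancel_right]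
  unfold Df
  have h3 : ∑ x, (starRingEnd ℂ) (u x) * (v (x + e) - v (x - e)) =
      ∑ x, (starRingEnd ℂ) (u x) * v (x + e) - ∑ x, (starRingEnd ℂ) (u x) * v (x - e) := by
    rw [← Finset.sum_sub_distrib]
    exact Finset.sum_congr rfl fun x _ => by ring
  have h4 : ∑ x, (starRingEnd ℂ) (u (x + e) - u (x - e)) * v x =
      ∑ x, (starRingEnd ℂ) (u (x + e)) * v x - ∑ x, (starRingEnd ℂ) (u (x - e)) * v x := by
    rw [← Finset.sum_sub_distrib]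
    exact Finset.sum_congr rfl fun x _ => by rw [map_sub]; ring
  rw [h3, h4, h1, h2]
  ring

theorem hm_mulVec {Λ : Type} [Fintype Λ] [DecidableEq Λ] (h : Λ → Λ → ℝ) (V : Λ → ℝ) (u : Λ → ℂ)
    (x : Λ) : (Hm h V *ᵥ u) x = ∑ y, ((h x y : ℝ) : ℂ) * u y + (V x : ℂ) * u x := by
  show ∑ y, ((h x y : ℂ) + if x = y then (V x : ℂ) else 0) * u y = _
  have h1 : ∀ y, ((h x y : ℂ) + if x = y then (V x : ℂ) else 0) * u y =
      ((h x y : ℝ) : ℂ) * u y + if x = y then (V x : ℂ) * u y else 0 := by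
    intro y
    rw [add_mul, ite_mul, zero_mul]
  rw [Finset.sum_congr rfl fun y _ => h1 y, Finset.sum_add_distrib, Finset.sum_ite_eq]
  simp

theorem two_sum (i : Fin d) (u : Tor d n → ℂ) (x : Tor d n) :
    ∑ y, ((two i x y : ℝ) : ℂ) * u y = -Df (ev i) (Df (ev i) u) x := by
  have h : ∀ y, ((two i x y : ℝ) : ℂ) * u y = (if y = x then 2 * u y else 0) -
      (if y = x + ev i + ev i then u y else 0) - (if y = x - ev i - ev i then u y else 0) := by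
    intro y
    unfold two
    push_cast
    rw [sub_mul, sub_mul]
    split_ifs <;> simp
  rw [Finset.sum_congr rfl fun y _ => h y, Finset.sum_sub_distrib, Finset.sum_sub_distrib,
    Finset.sum_ite_eq', Finset.sum_ite_eq', Finset.sum_ite_eq']
  simp only [Finset.mem_univ, if_true]
  unfold Df
  rw [add_sub_cancel_right, sub_add_cancel]
  ring

theorem m2_vec (i : Fin d) (ε : ℝ) (u : Tor d n → ℂ) (x : Tor d n) :
    (Hm (two i) (fun _ => ε ^ 2) *ᵥ u) x = -Df (ev i) (Df (ev i) u) x + ((ε ^ 2 : ℝ) : ℂ) * u x := by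
  rw [hm_mulVec, two_sum]

theorem nsq (u : Tor d n → ℂ) : ∑ x, (starRingEnd ℂ) (u x) * u x = ((∑ x, ‖u x‖ ^ 2 : ℝ) : ℂ) := by
  push_cast
  exact Finset.sum_congr rfl fun x _ => Complex.conj_mul' _

/-- the quadratic form of `Dᵀ D + ε²` -/
theorem m2_form (i : Fin d) (ε : ℝ) (u : Tor d n → ℂ) :
    ∑ x, (starRingEnd ℂ) (u x) * (Hm (two i) (fun _ => ε ^ 2) *ᵥ u) x =
      ((∑ x, ‖Df (ev i) u x‖ ^ 2 + ε ^ 2 * ∑ x, ‖u x‖ ^ 2 : ℝ) : ℂ) := by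
  have h1 : ∑ x, (starRingEnd ℂ) (u x) * (Hm (two i) (fun _ => ε ^ 2) *ᵥ u) x =
      -∑ x, (starRingEnd ℂ) (u x) * Df (ev i) (Df (ev i) u) x +
        ((ε ^ 2 : ℝ) : ℂ) * ∑ x, (starRingEnd ℂ) (u x) * u x := by
    rw [Finset.mul_sum, ← Finset.sum_neg_distrib, ← Finset.sum_add_distrib]
    refine Finset.sum_congr rfl fun x _ => ?_
    rw [m2_vec]
    ring
  rw [h1, df_adj, neg_neg, nsq, nsq]
  push_cast
  ring

theorem m2_unit (i : Fin d) (ε : ℝ) (hε : 0 < ε) :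
    IsUnit (Hm (two i) (fun _ : Tor d n => ε ^ 2)) := by
  rw [← Matrix.mulVec_injective_iff_isUnit]
  intro u v huv
  have h0 : Hm (two i) (fun _ : Tor d n => ε ^ 2) *ᵥ (u - v) = 0 := by
    rw [Matrix.mulVec_sub]
    exact sub_eq_zero.2 huv
  have h1 := m2_form i ε (u - v)
  rw [h0] at h1
  simp only [Pi.zero_apply, mul_zero, Finset.sum_const_zero] at h1
  have h2 : ∑ x, ‖Df (ev i) (u - v) x‖ ^ 2 + ε ^ 2 * ∑ x, ‖(u - v) x‖ ^ 2 = 0 := by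
    exact_mod_cast h1.symm
  have h3 : 0 ≤ ∑ x, ‖Df (ev i) (u - v) x‖ ^ 2 := Finset.sum_nonneg fun x _ => sq_nonneg _
  have h4 : 0 ≤ ∑ x, ‖(u - v) x‖ ^ 2 := Finset.sum_nonneg fun x _ => sq_nonneg _
  have h5 : ∑ x, ‖(u - v) x‖ ^ 2 = 0 := by
    have h6 : ε ^ 2 * ∑ x, ‖(u - v) x‖ ^ 2 = 0 := by nlinarith [mul_nonneg (sq_nonneg ε) h4]
    rcases mul_eq_zero.1 h6 with h7 | h7
    · exact absurd h7 (by positivity)
    · exact h7
  funext x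
  have h6 := (Finset.sum_eq_zero_iff_of_nonneg fun x _ => sq_nonneg ‖(u - v) x‖).1 h5 x
    (Finset.mem_univ x)
  have h7 : (u - v) x = 0 := norm_eq_zero.1 (pow_eq_zero_iff two_ne_zero |>.1 h6)
  exact sub_eq_zero.1 h7

/-- `H₀ - z` -/
noncomputable def HZ (z : ℂ) (v : Tor d n → ℂ) (x : Tor d n) : ℂ :=
  ∑ y, ((hop x y : ℝ) : ℂ) * v y - z * v x

theorem hz_vec (z : ℂ) (v : Tor d n → ℂ) :
    (Hm hop (fun _ => 0) - z • (1 : Matrix (Tor d n) (Tor d n) ℂ)) *ᵥ v = HZ z v := by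
  funext x
  rw [Matrix.sub_mulVec, Matrix.smul_mulVec, Matrix.one_mulVec, Pi.sub_apply, hm_mulVec]
  unfold HZ
  simp

theorem hz_df (z : ℂ) (e : Tor d n) (v : Tor d n → ℂ) : HZ z (Df e v) = Df e (HZ z v) := by
  funext x
  have h : ∑ j, ((v (x + ev j + e) - v (x + ev j - e)) + (v (x - ev j + e) - v (x - ev j - e))) =
      ∑ j, (v (x + e + ev j) + v (x + e - ev j)) - ∑ j, (v (x - e + ev j) + v (x - e - ev j)) := by
    rw [← Finset.sum_sub_distrib]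
    refine Finset.sum_congr rfl fun j _ => ?_
    have e1 : x + ev j + e = x + e + ev j := by abel
    have e2 : x + ev j - e = x - e + ev j := by abel
    have e3 : x - ev j + e = x + e - ev j := by abel
    have e4 : x - ev j - e = x - e - ev j := by abel
    rw [e1, e2, e3, e4]
    ring
  have a1 : HZ z (Df e v) x = -∑ j, ((v (x + ev j + e) - v (x + ev j - e)) +
      (v (x - ev j + e) - v (x - ev j - e))) - z * (v (x + e) - v (x - e)) := by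
    unfold HZ
    rw [hop_sum]
    rfl
  have a2 : Df e (HZ z v) x = (-∑ j, (v (x + e + ev j) + v (x + e - ev j)) - z * v (x + e)) -
      (-∑ j, (v (x - e + ev j) + v (x - e - ev j)) - z * v (x - e)) := by
    show HZ z v (x + e) - HZ z v (x - e) = _
    unfold HZ
    rw [hop_sum, hop_sum]
  rw [a1, a2, h]
  ring

end

/-- **JOB SLB.** -/
theorem slb : S_SLB := by
  intro hINV hOPB hCOM d n _ i L hL hn E η ε e hη hε hε1 he φ hφ b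
  obtain ⟨z, hz⟩ : ∃ z : ℂ, z = pt E η := ⟨_, rfl⟩
  rw [← hz]
  have hzim : z.im = η := by rw [hz]; unfold pt; simp
  have hzre : z.re = E := by rw [hz]; unfold pt; simp
  have hsym : ∀ x y : Tor d n, hop x y = hop y x := by
    intro x y
    unfold hop
    congr 1
    refine Finset.sum_congr rfl fun j _ => ?_
    have e1 : (y = x + ev j) ↔ (x = y - ev j) := by
      constructor
      · rintro rfl; abel
      · rintro rfl; abel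
    have e2 : (y = x - ev j) ↔ (x = y + ev j) := by
      constructor
      · rintro rfl; abel
      · rintro rfl; abel
    simp only [e1, e2]
    rw [add_comm]
  obtain ⟨hI1, hI2, -⟩ := hINV (Tor d n) hop (fun _ => 0) z hsym (by rw [hzim]; exact hη.ne')
  obtain ⟨G0, hG0⟩ : ∃ G0 : Matrix (Tor d n) (Tor d n) ℂ, G0 = G hop (fun _ => 0) z := ⟨_, rfl⟩
  rw [← hG0] at hI1 hI2
  have hop' : ∀ f : Tor d n → ℂ, ∑ x, ‖(G0 *ᵥ f) x‖ ^ 2 ≤ (∑ y, ‖f y‖ ^ 2) / η ^ 2 := by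
    intro f
    have := hOPB (Tor d n) hop (fun _ => 0) z hsym (by rw [hzim]; exact hη) f
    rw [hzim, ← hG0] at this
    exact this
  have hGl : ∀ f : Tor d n → ℂ, HZ z (G0 *ᵥ f) = f := by
    intro f
    rw [← hz_vec, Matrix.mulVec_mulVec, hI1, Matrix.one_mulVec]
  have hGr : ∀ f : Tor d n → ℂ, G0 *ᵥ (HZ z f) = f := by
    intro f
    rw [← hz_vec, Matrix.mulVec_mulVec, hI2, Matrix.one_mulVec]
  have hGD : ∀ f : Tor d n → ℂ, Df (ev i) (G0 *ᵥ f) = G0 *ᵥ (Df (ev i) f) := by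
    intro f
    rw [← hGr (Df (ev i) (G0 *ᵥ f)), hz_df, hGl]
  -- the vector `u`
  have hU := m2_unit (n := n) i ε hε
  obtain ⟨u, hu⟩ : ∃ u : Tor d n → ℂ, u = (Hm (two i) (fun _ => ε ^ 2))⁻¹ *ᵥ φ := ⟨_, rfl⟩
  have hu2 : Hm (two i) (fun _ => ε ^ 2) *ᵥ u = φ := by
    rw [hu, Matrix.mulVec_mulVec, Matrix.mul_nonsing_inv _ ((Matrix.isUnit_iff_isUnit_det _).1 hU),
      Matrix.one_mulVec]
  obtain ⟨κ, hκ⟩ : ∃ κ : Tor d n → ℂ, κ = fun x => ∑ y, Km i ε x y * φ y := ⟨_, rfl⟩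
  have hκu : κ = fun x => ((ε ^ 2 : ℝ) : ℂ) * u x := by
    rw [hκ]
    funext x
    show (Km i ε *ᵥ φ) x = _
    unfold Km
    rw [Matrix.smul_mulVec, ← hu, Pi.smul_apply, smul_eq_mul]
  have hφ2 : ∀ x, φ x = -Df (ev i) (Df (ev i) u) x + κ x := by
    intro x
    have := congrFun hu2 x
    rw [m2_vec] at this
    rw [← this, hκu]
  obtain ⟨g₁, hg₁⟩ : ∃ g₁ : Tor d n → ℂ, g₁ = -Df (ev i) u := ⟨_, rfl⟩
  have hg₁n : ∑ x, ‖g₁ x‖ ^ 2 ≤ 1 / (4 * ε ^ 2) := by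
    have h1 := m2_form i ε u
    rw [hu2] at h1
    have h2 : ‖∑ x, (starRingEnd ℂ) (u x) * φ x‖ ≤ Real.sqrt (∑ x, ‖u x‖ ^ 2) := by
      refine (cs u φ).trans (le_of_eq ?_)
      rw [hφ, Real.sqrt_one, mul_one]
    rw [h1, Complex.norm_real, Real.norm_eq_abs] at h2
    have h3 := (le_abs_self _).trans h2
    have h4 : Real.sqrt (∑ x, ‖u x‖ ^ 2) ^ 2 = ∑ x, ‖u x‖ ^ 2 :=
      Real.sq_sqrt (Finset.sum_nonneg fun x _ => sq_nonneg _)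
    have h5 : ∑ x, ‖g₁ x‖ ^ 2 = ∑ x, ‖Df (ev i) u x‖ ^ 2 := by
      refine Finset.sum_congr rfl fun x _ => ?_
      rw [hg₁, Pi.neg_apply, norm_neg]
    rw [h5, le_div_iff₀ (by positivity)]
    obtain ⟨a, ha⟩ : ∃ a : ℝ, a = Real.sqrt (∑ x, ‖u x‖ ^ 2) := ⟨_, rfl⟩
    rw [← ha] at h3 h4
    rw [← h4] at h3
    have h6 := mul_le_mul_of_nonneg_left h3 (show (0 : ℝ) ≤ 4 * ε ^ 2 by positivity)
    nlinarith [sq_nonneg (2 * ε ^ 2 * a - 1)]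
  have hφ3 : φ = Df (ev i) g₁ + κ := by
    funext x
    rw [hφ2 x, Pi.add_apply, hg₁]
    unfold Df
    simp only [Pi.neg_apply]
    ring
  -- the vector `g`
  obtain ⟨g, hg⟩ : ∃ g : Tor d n → ℂ, g = ((e : ℂ) - z) • (G0 *ᵥ g₁) := ⟨_, rfl⟩
  obtain ⟨F, hF⟩ : ∃ F : Tor d n → ℂ, F = ((e : ℂ) - z) • g₁ := ⟨_, rfl⟩
  have hgF : HZ z g = F := by
    rw [hg, hF, ← hz_vec, Matrix.mulVec_smul, hz_vec, hGl]
  have hez : ‖(e : ℂ) - z‖ ^ 2 ≤ 2 * η ^ 2 := by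
    rw [← Complex.normSq_eq_norm_sq, Complex.normSq_apply, Complex.sub_re, Complex.sub_im,
      Complex.ofReal_re, Complex.ofReal_im, hzre, hzim]
    have := sq_le_sq' (by linarith [(abs_le.1 he).1]) (abs_le.1 he).2
    nlinarith
  have hgn : ∑ x, ‖g x‖ ^ 2 ≤ 1 / (2 * ε ^ 2) := by
    have h1 : ∑ x, ‖g x‖ ^ 2 = ‖(e : ℂ) - z‖ ^ 2 * ∑ x, ‖(G0 *ᵥ g₁) x‖ ^ 2 := by
      rw [Finset.mul_sum]
      refine Finset.sum_congr rfl fun x _ => ?_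
      rw [hg, Pi.smul_apply, smul_eq_mul, norm_mul, mul_pow]
    rw [h1]
    calc ‖(e : ℂ) - z‖ ^ 2 * ∑ x, ‖(G0 *ᵥ g₁) x‖ ^ 2 ≤ 2 * η ^ 2 * ((∑ y, ‖g₁ y‖ ^ 2) / η ^ 2) :=
          mul_le_mul hez (hop' g₁) (Finset.sum_nonneg fun x _ => sq_nonneg _) (by positivity)
      _ = 2 * ∑ y, ‖g₁ y‖ ^ 2 := by field_simp
      _ ≤ 2 * (1 / (4 * ε ^ 2)) := by linarith
      _ = 1 / (2 * ε ^ 2) := by field_simp; ring
  have hFn : ∑ x, ‖F x‖ ^ 2 ≤ η ^ 2 / (2 * ε ^ 2) := by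
    have h1 : ∑ x, ‖F x‖ ^ 2 = ‖(e : ℂ) - z‖ ^ 2 * ∑ x, ‖g₁ x‖ ^ 2 := by
      rw [Finset.mul_sum]
      refine Finset.sum_congr rfl fun x _ => ?_
      rw [hF, Pi.smul_apply, smul_eq_mul, norm_mul, mul_pow]
    rw [h1]
    calc ‖(e : ℂ) - z‖ ^ 2 * ∑ x, ‖g₁ x‖ ^ 2 ≤ 2 * η ^ 2 * (1 / (4 * ε ^ 2)) :=
          mul_le_mul hez hg₁n (Finset.sum_nonneg fun x _ => sq_nonneg _) (by positivity)
      _ = η ^ 2 / (2 * ε ^ 2) := by field_simp; ring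
  have hprod : Real.sqrt (∑ x, ‖F x‖ ^ 2) * Real.sqrt (∑ x, ‖g x‖ ^ 2) ≤ η / (2 * ε ^ 2) := by
    rw [← Real.sqrt_mul (Finset.sum_nonneg fun x _ => sq_nonneg _)]
    refine Real.sqrt_le_iff.2 ⟨by positivity, ?_⟩
    calc (∑ x, ‖F x‖ ^ 2) * ∑ x, ‖g x‖ ^ 2 ≤ η ^ 2 / (2 * ε ^ 2) * (1 / (2 * ε ^ 2)) :=
          mul_le_mul hFn hgn (Finset.sum_nonneg fun x _ => sq_nonneg _) (by positivity)
      _ = (η / (2 * ε ^ 2)) ^ 2 := by ring
  have hcom := hCOM d n i L hL hn E η hη g F (by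
    intro x
    rw [← hz]
    exact congrFun hgF x) b
  have hL1 : (1 : ℝ) ≤ L := by exact_mod_cast hL
  have hL0 : (0 : ℝ) < L := by linarith
  have hcom2 : ∑ x, Set.indicator {x : Tor d n | x i ∈ slab b L}
      (fun x => ‖g (x + ev i) - g (x - ev i)‖ ^ 2) x ≤ 100 / ε ^ 2 * (L * η + 1 / L) := by
    refine hcom.trans ?_
    have t1 : (L : ℝ) * η * ∑ x, ‖g x‖ ^ 2 ≤ L * η * (1 / (2 * ε ^ 2)) :=
      mul_le_mul_of_nonneg_left hgn (by positivity)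
    have t2 : (L : ℝ) * (Real.sqrt (∑ x, ‖F x‖ ^ 2) * Real.sqrt (∑ x, ‖g x‖ ^ 2)) ≤
        L * (η / (2 * ε ^ 2)) := mul_le_mul_of_nonneg_left hprod (by positivity)
    have t3 : (∑ x, ‖g x‖ ^ 2) / (L : ℝ) ≤ (1 / (2 * ε ^ 2)) / L :=
      div_le_div_of_nonneg_right hgn hL0.le
    calc 100 * (L * η * ∑ x, ‖g x‖ ^ 2 +
          L * (Real.sqrt (∑ x, ‖F x‖ ^ 2) * Real.sqrt (∑ x, ‖g x‖ ^ 2)) + (∑ x, ‖g x‖ ^ 2) / L)
        ≤ 100 * (L * η * (1 / (2 * ε ^ 2)) + L * (η / (2 * ε ^ 2)) + (1 / (2 * ε ^ 2)) / L) := by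
          linarith
      _ = 100 / ε ^ 2 * (L * η + 1 / (2 * L)) := by field_simp; ring
      _ ≤ 100 / ε ^ 2 * (L * η + 1 / L) := by
          refine mul_le_mul_of_nonneg_left ?_ (by positivity)
          have : (1 : ℝ) / (2 * L) ≤ 1 / L := by
            rw [div_le_div_iff₀ (by positivity) hL0]
            linarith
          linarith
  -- the remainder
  obtain ⟨r, hr⟩ : ∃ r : Tor d n → ℂ, r = fun x => φ x - ((e : ℂ) - z) * ∑ y, G0 x y * φ y := ⟨_, rfl⟩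
  have hdec : ∀ x, φ x = (g (x + ev i) - g (x - ev i)) + ((e : ℂ) - z) * (G0 *ᵥ κ) x + r x := by
    intro x
    have h1 : (G0 *ᵥ φ) x = Df (ev i) (G0 *ᵥ g₁) x + (G0 *ᵥ κ) x := by
      rw [hφ3, Matrix.mulVec_add, Pi.add_apply, hGD]
    have h2 : g (x + ev i) - g (x - ev i) = ((e : ℂ) - z) * Df (ev i) (G0 *ᵥ g₁) x := by
      rw [hg]
      unfold Df
      simp only [Pi.smul_apply, smul_eq_mul]
      ring
    have h3 : r x = φ x - ((e : ℂ) - z) * (G0 *ᵥ φ) x := by rw [hr]; rfl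
    rw [h3, h1, h2]
    ring
  have hpt : ∀ x, ‖φ x‖ ^ 2 ≤ 4 * ‖g (x + ev i) - g (x - ev i)‖ ^ 2 +
      4 * (‖(e : ℂ) - z‖ ^ 2 * ‖(G0 *ᵥ κ) x‖ ^ 2) + 2 * ‖r x‖ ^ 2 := by
    intro x
    have h1 : ‖φ x‖ ≤ ‖g (x + ev i) - g (x - ev i)‖ + ‖(e : ℂ) - z‖ * ‖(G0 *ᵥ κ) x‖ + ‖r x‖ := by
      conv_lhs => rw [hdec x]
      refine (norm_add_le _ _).trans (add_le_add_left ?_ _)
      refine (norm_add_le _ _).trans (le_of_eq ?_)
      rw [norm_mul]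
    have h2 := pow_le_pow_left₀ (norm_nonneg _) h1 2
    nlinarith [sq_nonneg (‖g (x + ev i) - g (x - ev i)‖ - ‖(e : ℂ) - z‖ * ‖(G0 *ᵥ κ) x‖),
      sq_nonneg (‖g (x + ev i) - g (x - ev i)‖ + ‖(e : ℂ) - z‖ * ‖(G0 *ᵥ κ) x‖ - ‖r x‖)]
  have hsum : ∑ x, Set.indicator {x : Tor d n | x i ∈ slab b L} (fun x => ‖φ x‖ ^ 2) x ≤
      4 * ∑ x, Set.indicator {x : Tor d n | x i ∈ slab b L}
        (fun x => ‖g (x + ev i) - g (x - ev i)‖ ^ 2) x +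
      4 * (‖(e : ℂ) - z‖ ^ 2 * ∑ x, ‖(G0 *ᵥ κ) x‖ ^ 2) + 2 * ∑ x, ‖r x‖ ^ 2 := by
    rw [Finset.mul_sum, Finset.mul_sum, Finset.mul_sum, Finset.mul_sum, ← Finset.sum_add_distrib,
      ← Finset.sum_add_distrib]
    refine Finset.sum_le_sum fun x _ => ?_
    by_cases hx : x ∈ {x : Tor d n | x i ∈ slab b L}
    · rw [Set.indicator_of_mem hx, Set.indicator_of_mem hx]
      exact hpt x
    · rw [Set.indicator_of_notMem hx, Set.indicator_of_notMem hx]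
      positivity
  have hk : ‖(e : ℂ) - z‖ ^ 2 * ∑ x, ‖(G0 *ᵥ κ) x‖ ^ 2 ≤ 2 * ∑ x, ‖κ x‖ ^ 2 := by
    calc ‖(e : ℂ) - z‖ ^ 2 * ∑ x, ‖(G0 *ᵥ κ) x‖ ^ 2 ≤ 2 * η ^ 2 * ((∑ y, ‖κ y‖ ^ 2) / η ^ 2) :=
          mul_le_mul hez (hop' κ) (Finset.sum_nonneg fun x _ => sq_nonneg _) (by positivity)
      _ = 2 * ∑ y, ‖κ y‖ ^ 2 := by field_simp
  have hrr : ∑ x, ‖r x‖ ^ 2 = ∑ x, ‖φ x - ((e : ℂ) - z) * ∑ y, G hop (fun _ => 0) z x y * φ y‖ ^ 2 := by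
    rw [hr, hG0]
  have hkk : ∑ x, ‖κ x‖ ^ 2 = ∑ x, ‖∑ y, Km i ε x y * φ y‖ ^ 2 := by rw [hκ]
  rw [← hrr, ← hkk]
  have e400 : 400 / ε ^ 2 * (L * η + 1 / L) = 4 * (100 / ε ^ 2 * (L * η + 1 / L)) := by ring
  rw [e400]
  linarith

end Pool.Agent.Q150.HB
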